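import Mathlib
import Pool.Agent.H57.FC.Defs
import Pool.Agent.H57.FC.RDefs
import Pool.Agent.H57.FC.GDefs
import Pool.Agent.H57.FC.UDefs
import Pool.Agent.H57.FC.Exc
import Pool.Agent.H57.FC.Uni2

set_option autoImplicit false

namespace Pool.Agent.Results.MP_8775e7_co.ReflexSets

open Pool.Agent.H57.FC Real

/-- (1) Let `o` be a flat state of a closed nonacute fixed-angle chain with `n ≥ 3` links (any angles, any lengths). The set `R` of
its reflex vertices is a possible set, and to every set `R'` of vertices belongs a proper subspace `U R'` of the space `closing o`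
of the vectors `l` of factors for which the links `l i • (o (i + 1) - o i)` form a closed chain, such that for every positive `l` and
every flat state `p` with these links:
(a) a flat state `q` of the chain of `p` is congruent to `p`, or its set `R'` of reflex vertices is not `R` and `l` lies in `U R'`;
(b) if `l` lies in no `U R'` with `R'` critical for `R`, then the chain of `p` is flat-state connected (in particular, for all `l`
if there is no critical `R'`, for instance if `o` has at most one reflex vertex; take `l = 1`, `p = o`).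
(c) Such `l` outside of all the `U R'` exist arbitrarily close to `(1, …, 1)`.
(2) There are no critical sets if there are at most 7 links; if any `n - 4` turns have a sum smaller than `2 π`; if two
disjoint nonempty sets of non-straight vertices with equal total turns always consist of single vertices; if there are 8 links and,
whenever four vertices are right-angled and the other four are not straight, these four cannot be split into two pairs with equal
total turn. -/
theorem result :
    (∀ n : ℕ, 3 ≤ n → ∀ o : Fin n → EuclideanSpace ℝ (Fin 3), FlatState o → Nonacute o →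
      ∃ R : Finset (Fin n), IsReflexSet o R ∧ ∃ U : Finset (Fin n) → Submodule ℝ (Fin n → ℝ), (∀ R', U R' < closing o) ∧
        (∀ l : Fin n → ℝ, (∀ i, 0 < l i) → ∀ p : Fin n → EuclideanSpace ℝ (Fin 3), FlatState p →
          (∀ i, p (finRotate n i) - p i = l i • (o (finRotate n i) - o i)) →
          (∀ q, FlatState q → SameChain q p → ∃ R', IsReflexSet q R' ∧
            ((R' = R ∧ ∀ i j, dist (q i) (q j) = dist (p i) (p j)) ∨ (R' ≠ R ∧ l ∈ U R'))) ∧
          ((∀ R', Critical (turn o) R R' → l ∉ U R') →
            ∀ q q', FlatState q → FlatState q' → SameChain q p → SameChain q' p → JoinedByMotion q q')) ∧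
        ∀ δ : ℝ, 0 < δ → ∃ (l : Fin n → ℝ) (p : Fin n → EuclideanSpace ℝ (Fin 3)), (∀ i, 0 < l i) ∧ (∀ i, |l i - 1| < δ) ∧
          (∀ R', l ∉ U R') ∧ FlatState p ∧ ∀ i, p (finRotate n i) - p i = l i • (o (finRotate n i) - o i)) ∧
    ∀ (n : ℕ) (o : Fin n → EuclideanSpace ℝ (Fin 3)), Nonacute o →
      (n ≤ 7 ∨
        (∀ D : Finset (Fin n), D.card + 4 = n → ∑ v ∈ D, turn o v < 2 * π) ∨
        (∀ A B : Finset (Fin n), Disjoint A B → A.Nonempty → B.Nonempty → (∀ v ∈ A ∪ B, turn o v ≠ 0) →
          ∑ v ∈ A, turn o v = ∑ v ∈ B, turn o v → A.card = 1 ∧ B.card = 1) ∨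
        (n = 8 ∧ ∀ A B : Finset (Fin n), Disjoint A B → A.card = 2 → B.card = 2 → (∀ v ∈ A ∪ B, turn o v ≠ 0) →
          (∀ v, v ∉ A ∪ B → turn o v = π / 2) → ∑ v ∈ A, turn o v ≠ ∑ v ∈ B, turn o v)) →
      ∀ R R', PossibleReflex (turn o) R → ¬ Critical (turn o) R R' := by
  refine ⟨fun n h3 o ho ha => ?_, fun n o ha h R R' hR hc => ?_⟩
  · obtain ⟨R, hR, U, hU, h⟩ := unified h3 ho ha
    refine ⟨R, hR, U, hU, h, fun δ hδ => ?_⟩
    obtain ⟨l, p, h1, h2, h4, h5, h6⟩ := dense_good h3 ho ha (𝒰 := Set.range U) (Set.finite_range U) (by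
      rintro _ ⟨R', rfl⟩
      exact hU R') hδ
    exact ⟨l, p, h1, h2, fun R' => h4 _ ⟨R', rfl⟩, h5, h6⟩
  · have h0 : ExchangeCondition (turn o) := by
      refine exchange_of ?_ ?_ h
      · intro v
        have := EuclideanGeometry.angle_le_pi (o ((finRotate n).symm v)) (o v) (o (finRotate n v))
        unfold turn jointAngle
        linarith
      · intro v
        have := ha v
        unfold turn
        linarith
    obtain ⟨c1, c2, c3, c4, c5⟩ := hc
    rcases h0 R R' hR c1 c2.symm with h1 | h1 | h1
    · exact c5 h1
    · omega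
    · omega

end Pool.Agent.Results.MP_8775e7_co.ReflexSets
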